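import Pool.Agent.Y293.FA.Stm3
import Pool.Agent.Y293.FA.Base

set_option autoImplicit false

/-!
# Pinned distances: the pins for which a square is bad
-/

namespace Pool.Agent.Y484.FA

open MeasureTheory Set Filter Topology Metric
open Pool.Agent.Y293.FA
open scoped ENNReal

theorem meas_qi (k : ℕ) : Measurable (qi k) := by
  unfold qi
  exact Measurable.prodMk (Int.measurable_floor.comp (Complex.measurable_re.const_mul _))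
    (Int.measurable_floor.comp (Complex.measurable_im.const_mul _))

theorem meas_ce (k : ℕ) (q : ℤ × ℤ) : MeasurableSet (ce k q) :=
  meas_qi k (measurableSet_singleton q)

theorem ce_near (k : ℕ) (q : ℤ × ℤ) (z : ℂ) (hz : z ∈ ce k q) :
    ‖z - yc k q‖ ≤ 2 * (2⁻¹ : ℝ) ^ k := by
  have h2 : (0 : ℝ) < 2 ^ k := by positivity
  have h1 : qi k z = q := hz
  have hre : ∀ x : ℝ, |x - (⌊(2 : ℝ) ^ k * x⌋ : ℝ) / 2 ^ k| ≤ (2⁻¹ : ℝ) ^ k := by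
    intro x
    have e1 := Int.floor_le ((2 : ℝ) ^ k * x)
    have e2 := Int.lt_floor_add_one ((2 : ℝ) ^ k * x)
    have e3 : x - (⌊(2 : ℝ) ^ k * x⌋ : ℝ) / 2 ^ k = (2 ^ k * x - ⌊(2 : ℝ) ^ k * x⌋) * (2⁻¹ : ℝ) ^ k := by
      rw [inv_pow]
      field_simp
    rw [e3, abs_mul, abs_of_nonneg (by linarith), abs_of_pos (by positivity : (0 : ℝ) < (2⁻¹ : ℝ) ^ k)]
    have : (0 : ℝ) < (2⁻¹ : ℝ) ^ k := by positivity
    nlinarith
  have h3 := Complex.norm_le_abs_re_add_abs_im (z - yc k q)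
  have h4 : (z - yc k q).re = z.re - (⌊(2 : ℝ) ^ k * z.re⌋ : ℝ) / 2 ^ k := by
    rw [← h1]
    rfl
  have h5 : (z - yc k q).im = z.im - (⌊(2 : ℝ) ^ k * z.im⌋ : ℝ) / 2 ^ k := by
    rw [← h1]
    rfl
  rw [h4, h5] at h3
  linarith [hre z.re, hre z.im]

theorem prob_cm (μ : Measure ℂ) [IsFiniteMeasure μ] {Q : Set ℂ} (h : μ Q ≠ 0) :
    IsProbabilityMeasure (cm μ Q) :=
  ⟨by
    unfold cm
    rw [Measure.smul_apply, Measure.restrict_apply_univ, smul_eq_mul,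
      ENNReal.inv_mul_cancel h (measure_ne_top _ _)]⟩

/-- the exponents -/
theorem num (CQ CE D s s' t' ε α γ : ℝ) (k : ℕ) (hCQ : 0 < CQ) (hCE : 0 < CE) (hD : 0 < D)
    (h1 : t' - s + ε + 2 * γ < α * (s' - 1)) (h2 : 2 * α + ε + 2 * γ < 1) :
    CQ * (2 : ℝ) ^ (ε * k) *
      (CE * (D * ((2⁻¹ : ℝ) ^ k) ^ s / (2 : ℝ) ^ (-(t' * k))) * (ds α k / (2⁻¹ : ℝ) ^ k) ^ (s' - 1) /
        (2⁻¹ : ℝ) ^ k + ((2⁻¹ : ℝ) ^ k) ^ 2 / (ds α (k + 1)) ^ 2) /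
      ((2 : ℝ) ^ k * (2 : ℝ) ^ (-(γ * k))) ≤
    CQ * (CE * D + (2 : ℝ) ^ (2 * (1 + α))) * (2 : ℝ) ^ (-(γ * k)) := by
  have h20 : (0 : ℝ) < 2 := two_pos
  have hl : (2⁻¹ : ℝ) ^ k = (2 : ℝ) ^ (-(k : ℝ)) := by
    rw [Real.rpow_neg h20.le, Real.rpow_natCast, inv_pow]
  have h2k : (2 : ℝ) ^ k = (2 : ℝ) ^ (k : ℝ) := (Real.rpow_natCast 2 k).symm
  have hk : (0 : ℝ) ≤ k := Nat.cast_nonneg k
  rw [hl, h2k]
  unfold ds
  have e1 : ((2 : ℝ) ^ (-(k : ℝ))) ^ s = (2 : ℝ) ^ (-(k : ℝ) * s) := (Real.rpow_mul h20.le _ _).symm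
  have e2 : ((2 : ℝ) ^ (-((1 + α) * (k : ℝ))) / (2 : ℝ) ^ (-(k : ℝ))) ^ (s' - 1) =
      (2 : ℝ) ^ ((-((1 + α) * (k : ℝ)) - (-(k : ℝ))) * (s' - 1)) := by
    rw [← Real.rpow_sub h20, ← Real.rpow_mul h20.le]
  have e3 : ((2 : ℝ) ^ (-(k : ℝ))) ^ 2 / ((2 : ℝ) ^ (-((1 + α) * ((k + 1 : ℕ) : ℝ)))) ^ 2 =
      (2 : ℝ) ^ (2 * (1 + α)) * (2 : ℝ) ^ (2 * α * k) := by
    rw [← Real.rpow_natCast, ← Real.rpow_natCast, ← Real.rpow_mul h20.le, ← Real.rpow_mul h20.le,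
      ← Real.rpow_sub h20, ← Real.rpow_add h20]
    congr 1
    push_cast
    ring
  rw [e1, e2, e3]
  have e4 : CQ * (2 : ℝ) ^ (ε * k) *
      (CE * (D * (2 : ℝ) ^ (-(k : ℝ) * s) / (2 : ℝ) ^ (-(t' * k))) *
        (2 : ℝ) ^ ((-((1 + α) * (k : ℝ)) - (-(k : ℝ))) * (s' - 1)) / (2 : ℝ) ^ (-(k : ℝ)) +
        (2 : ℝ) ^ (2 * (1 + α)) * (2 : ℝ) ^ (2 * α * k)) /
      ((2 : ℝ) ^ (k : ℝ) * (2 : ℝ) ^ (-(γ * k))) =
      CQ * (CE * D * ((2 : ℝ) ^ (ε * k) * (2 : ℝ) ^ (-(k : ℝ) * s) / (2 : ℝ) ^ (-(t' * k)) *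
        (2 : ℝ) ^ ((-((1 + α) * (k : ℝ)) - (-(k : ℝ))) * (s' - 1)) / (2 : ℝ) ^ (-(k : ℝ)) /
        ((2 : ℝ) ^ (k : ℝ) * (2 : ℝ) ^ (-(γ * k)))) +
        (2 : ℝ) ^ (2 * (1 + α)) * ((2 : ℝ) ^ (ε * k) * (2 : ℝ) ^ (2 * α * k) /
          ((2 : ℝ) ^ (k : ℝ) * (2 : ℝ) ^ (-(γ * k))))) := by
    ring
  rw [e4, ← Real.rpow_add h20, ← Real.rpow_add h20, ← Real.rpow_add h20, ← Real.rpow_sub h20,
    ← Real.rpow_add h20, ← Real.rpow_sub h20, ← Real.rpow_sub h20, ← Real.rpow_sub h20]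
  have f1 : ∀ x : ℝ, x ≤ -(γ * k) → (2 : ℝ) ^ x ≤ (2 : ℝ) ^ (-(γ * k)) := fun x hx =>
    Real.rpow_le_rpow_of_exponent_le one_le_two hx
  have f2 := f1 (ε * k + -(k : ℝ) * s - -(t' * k) + (-((1 + α) * (k : ℝ)) - (-(k : ℝ))) * (s' - 1) -
    -(k : ℝ) - ((k : ℝ) + -(γ * k))) (by nlinarith)
  have f3 := f1 (ε * k + 2 * α * k - ((k : ℝ) + -(γ * k))) (by nlinarith)
  have f4 : (0 : ℝ) < (2 : ℝ) ^ (2 * (1 + α)) := by positivity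
  have f5 := mul_le_mul_of_nonneg_left f2 (by positivity : 0 ≤ CE * D)
  have f6 := mul_le_mul_of_nonneg_left f3 f4.le
  calc _ ≤ CQ * (CE * D * (2 : ℝ) ^ (-(γ * k)) + (2 : ℝ) ^ (2 * (1 + α)) * (2 : ℝ) ^ (-(γ * k))) :=
        mul_le_mul_of_nonneg_left (add_le_add f5 f6) hCQ.le
    _ = _ := by ring

theorem bd : S_ENERGY → S_CUBEN → S_MEAS → S_CUBE → S_BD := by
  intro hE hN hM hC μ _ R C s s' t' ε α γ κ hR hsupp hC0 hs' hss hs2 hF hε hγ hα hκ h1 h2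
  obtain ⟨CE, hCE, hE⟩ := hE
  obtain ⟨D, hD, hN⟩ := hN C s s' hC0 (by linarith) hss
  obtain ⟨CQ, hCQ, hC⟩ := hC R κ (by linarith) hκ
  refine ⟨CQ * (CE * D + (2 : ℝ) ^ (2 * (1 + α))), by positivity, fun k q hq => ?_⟩
  have hQ0 : μ (ce k q) ≠ 0 := by
    intro h
    rw [h] at hq
    have : (0 : ℝ) < (2 : ℝ) ^ (-(t' * k)) := by positivity
    exact absurd (ENNReal.ofReal_pos.mpr this) (not_lt.mpr hq)
  have hmQ := meas_ce k q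
  have hnear := ce_near k q
  have hl0 : (0 : ℝ) < (2⁻¹ : ℝ) ^ k := by positivity
  have hl1 : (2⁻¹ : ℝ) ^ k ≤ 1 := pow_le_one₀ (by norm_num) (by norm_num)
  have hy : ‖yc k q‖ ≤ R := by
    have h3 : ∃ z ∈ ce k q, ‖z‖ + 2 ≤ R := by
      by_contra hcon
      apply hQ0
      refine measure_mono_null ?_ (ae_iff.mp hsupp)
      intro z hz hz2
      exact hcon ⟨z, hz, hz2⟩
    obtain ⟨z, hz, hz2⟩ := h3
    have h4 := hnear z hz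
    have h5 := norm_sub_norm_le (yc k q) z
    rw [norm_sub_rev] at h5
    linarith
  have := prob_cm μ hQ0
  have : IsProbabilityMeasure (rs (yc k q) ((2⁻¹ : ℝ) ^ k) (cm μ (ce k q))) := by
    unfold rs
    exact Measure.isProbabilityMeasure_map
      ((measurable_id.sub_const _).div_const _).aemeasurable
  -- the energy
  have hen := hN μ hF (ce k q) hmQ hQ0 (yc k q) ((2⁻¹ : ℝ) ^ k) hl0 hnear
  have hp0 : (0 : ℝ) < (2 : ℝ) ^ (-(t' * k)) := by positivity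
  have hls : (0 : ℝ) < ((2⁻¹ : ℝ) ^ k) ^ s := by positivity
  have hen2 : en s' (rs (yc k q) ((2⁻¹ : ℝ) ^ k) (cm μ (ce k q))) ≤
      ENNReal.ofReal (D * ((2⁻¹ : ℝ) ^ k) ^ s / (2 : ℝ) ^ (-(t' * k))) := by
    refine hen.trans ?_
    rw [ENNReal.ofReal_div_of_pos hp0]
    exact ENNReal.div_le_div_left hq _
  have ha0 : 0 < ds α (k + 1) := by unfold ds; positivity
  have hab : ds α (k + 1) ≤ ds α k := by
    unfold ds
    apply Real.rpow_le_rpow_of_exponent_le one_le_two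
    push_cast
    nlinarith
  have hang := hE (rs (yc k q) ((2⁻¹ : ℝ) ^ k) (cm μ (ce k q))) s'
    (D * ((2⁻¹ : ℝ) ^ k) ^ s / (2 : ℝ) ^ (-(t' * k))) hs' (by linarith) (by positivity) hen2
    (ds α (k + 1) / (2⁻¹ : ℝ) ^ k) (ds α k / (2⁻¹ : ℝ) ^ k) (by positivity)
    (div_le_div_of_nonneg_right hab hl0.le)
  have hb0 : 0 < ds α k := lt_of_lt_of_le ha0 hab
  have hcube := hC μ (hsupp.mono fun x hx => by linarith) (ce k q) hmQ hQ0 (yc k q)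
    ((2⁻¹ : ℝ) ^ k) hy hl0 hl1 hnear (ds α (k + 1)) (ds α k) _ ((2 : ℝ) ^ (ε * k)) ha0 hab
    (by positivity) (Real.one_le_rpow one_le_two (by positivity)) hang
  -- Chebyshev
  have hmeas : Measurable fun x : ℂ =>
      ENNReal.ofReal (dd (ds α (k + 1)) (ds α k) ((cm μ (ce k q)).map (dist x))) :=
    (hM (cm μ (ce k q)) _ _ ha0 hb0).ennreal_ofReal
  have hT : (0 : ℝ) < (2 : ℝ) ^ k * (2 : ℝ) ^ (-(γ * k)) := by positivity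
  have hche := meas_ge_le_lintegral_div (μ := μ.restrict {x | κ ≤ ‖yc k q - x‖ ∧
      μ (tube (4 * R * (2⁻¹ : ℝ) ^ k) x (yc k q)) ≤
        ENNReal.ofReal ((2 : ℝ) ^ (ε * k) * (2⁻¹ : ℝ) ^ k)}) hmeas.aemeasurable
    (ε := ENNReal.ofReal ((2 : ℝ) ^ k * (2 : ℝ) ^ (-(γ * k))))
    (ENNReal.ofReal_pos.mpr hT).ne' ENNReal.ofReal_ne_top
  rw [Measure.restrict_apply (measurableSet_le measurable_const hmeas)] at hche
  refine (measure_mono ?_).trans (hche.trans ((ENNReal.div_le_div_right hcube _).trans ?_))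
  · rintro x ⟨hx1, hx2, hx3⟩
    exact ⟨ENNReal.ofReal_le_ofReal hx3.le, hx1, hx2⟩
  · rw [← ENNReal.ofReal_div_of_pos hT]
    exact ENNReal.ofReal_le_ofReal (num CQ CE D s s' t' ε α γ k hCQ hCE hD h1 h2)

end Pool.Agent.Y484.FA
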